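import Pool.Agent.Helper16.Abund.Defs2
import Pool.Agent.Helper8.Abund.FDerivHolo

/-!
The periods of a closed, lattice invariant 2-form over a family of lattices are constant.
-/

open Set Filter Topology MeasureTheory
open scoped ContDiff

namespace Pool.Agent.Helper81.Abund

open Pool.Agent.Helper16.Abund

section pullback

variable {P E : Type*} [NormedAddCommGroup P] [NormedSpace ℝ P]
  [NormedAddCommGroup E] [NormedSpace ℝ E]

/-- Derivative of a pulled back 2-form. -/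
theorem pullback_fderiv {Φ : P → E} {Ω : E → E →L[ℝ] E →L[ℝ] ℝ} {x : P}
    (hΦ : ContDiffAt ℝ 2 Φ x) (hΩ : DifferentiableAt ℝ Ω (Φ x)) (u v : P) :
    DifferentiableAt ℝ (fun y => Ω (Φ y) (fderiv ℝ Φ y u) (fderiv ℝ Φ y v)) x ∧
    ∀ w, fderiv ℝ (fun y => Ω (Φ y) (fderiv ℝ Φ y u) (fderiv ℝ Φ y v)) x w =
      fderiv ℝ Ω (Φ x) (fderiv ℝ Φ x w) (fderiv ℝ Φ x u) (fderiv ℝ Φ x v) +
      Ω (Φ x) (fderiv ℝ (fderiv ℝ Φ) x w u) (fderiv ℝ Φ x v) +
      Ω (Φ x) (fderiv ℝ Φ x u) (fderiv ℝ (fderiv ℝ Φ) x w v) := by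
  have hΦ1 : HasFDerivAt Φ (fderiv ℝ Φ x) x :=
    (hΦ.differentiableAt (by norm_num)).hasFDerivAt
  have hD : HasFDerivAt (fderiv ℝ Φ) (fderiv ℝ (fderiv ℝ Φ) x) x := by
    have := hΦ.fderiv_right (m := 1) (by norm_num)
    exact (this.differentiableAt (by norm_num)).hasFDerivAt
  have hc : HasFDerivAt (fun y => Ω (Φ y)) ((fderiv ℝ Ω (Φ x)).comp (fderiv ℝ Φ x)) x :=
    HasFDerivAt.comp (g := Ω) x hΩ.hasFDerivAt hΦ1
  have hu := hD.clm_apply (hasFDerivAt_const u x)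
  have hv := hD.clm_apply (hasFDerivAt_const v x)
  have h3 := (hc.clm_apply hu).clm_apply hv
  refine ⟨h3.differentiableAt, fun w => ?_⟩
  rw [h3.fderiv]
  simp
  ring

/-- The pull back of a closed 2-form is closed. -/
theorem pullback_closed {Φ : P → E} {Ω : E → E →L[ℝ] E →L[ℝ] ℝ} {x : P}
    (hΦ : ContDiffAt ℝ 2 Φ x) (hΩ : DifferentiableAt ℝ Ω (Φ x))
    (halt : ∀ u, Ω (Φ x) u u = 0)
    (hcl : ∀ a b c : E,
      fderiv ℝ Ω (Φ x) a b c + fderiv ℝ Ω (Φ x) b c a + fderiv ℝ Ω (Φ x) c a b = 0)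
    (w u v : P) :
    fderiv ℝ (fun y => Ω (Φ y) (fderiv ℝ Φ y u) (fderiv ℝ Φ y v)) x w +
    fderiv ℝ (fun y => Ω (Φ y) (fderiv ℝ Φ y v) (fderiv ℝ Φ y w)) x u +
    fderiv ℝ (fun y => Ω (Φ y) (fderiv ℝ Φ y w) (fderiv ℝ Φ y u)) x v = 0 := by
  have hanti : ∀ a b, Ω (Φ x) a b = - Ω (Φ x) b a := by
    intro a b
    have h := halt (a + b)
    simp only [map_add, add_apply, halt] at h
    linarith
  have hsym : ∀ a b, fderiv ℝ (fderiv ℝ Φ) x a b = fderiv ℝ (fderiv ℝ Φ) x b a := by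
    have := hΦ.isSymmSndFDerivAt (n := 2) (by simp)
    exact fun a b => this a b
  rw [(pullback_fderiv hΦ hΩ u v).2 w, (pullback_fderiv hΦ hΩ v w).2 u,
    (pullback_fderiv hΦ hΩ w u).2 v]
  have h0 := hcl (fderiv ℝ Φ x w) (fderiv ℝ Φ x u) (fderiv ℝ Φ x v)
  have h1 := hanti (fderiv ℝ (fderiv ℝ Φ) x w u) (fderiv ℝ Φ x v)
  have h2 := hanti (fderiv ℝ (fderiv ℝ Φ) x w v) (fderiv ℝ Φ x u)
  have h3 := hanti (fderiv ℝ (fderiv ℝ Φ) x u v) (fderiv ℝ Φ x w)
  rw [hsym u w, hsym v w, hsym v u]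
  linarith

end pullback

/-- A holomorphic map of several variables is twice continuously differentiable over the reals. -/
theorem contDiffAt_two {n : ℕ} {F : Type*} [NormedAddCommGroup F] [NormedSpace ℂ F]
    [CompleteSpace F] {U : Set (Fin n → ℂ)} (hU : IsOpen U) {f : (Fin n → ℂ) → F}
    (hf : DifferentiableOn ℂ f U) {z : Fin n → ℂ} (hz : z ∈ U) : ContDiffAt ℝ 2 f z := by
  have h1 := Pool.Agent.Helper8.Abund.differentiableOn_fderiv hU hf
  have h2 := Pool.Agent.Helper8.Abund.differentiableOn_fderiv hU h1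
  have h3 : ContDiffOn ℂ 2 f U := by
    have e2 : (2 : WithTop ℕ∞) = 1 + 1 := by norm_num
    have e1 : (1 : WithTop ℕ∞) = 0 + 1 := by norm_num
    rw [e2, contDiffOn_succ_iff_fderiv_of_isOpen hU]
    refine ⟨hf, by simp, ?_⟩
    rw [e1, contDiffOn_succ_iff_fderiv_of_isOpen hU]
    refine ⟨h1, by simp, ?_⟩
    rw [contDiffOn_zero]
    exact h2.continuousOn
  exact (h3.contDiffAt (hU.mem_nhds hz)).restrict_scalars ℝ

/-- The family of tori over a segment in the base. -/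
noncomputable def phi {b k : ℕ} (Λ : (Fin b → ℂ) → Fin (2 * k) → Fin k → ℂ) (z ξ : Fin b → ℂ)
    (x : Fin (2 * k + 1) → ℝ) : Fin (b + k) → ℂ :=
  Fin.append (z + x 0 • ξ) (comb Λ (z + x 0 • ξ) (Fin.tail x))

section phi

variable {b k : ℕ} {D : Set (Fin b → ℂ)} {Λ : (Fin b → ℂ) → Fin (2 * k) → Fin k → ℂ}
  {z ξ : Fin b → ℂ}

theorem base_append (u : Fin b → ℂ) (w : Fin k → ℂ) : base (Fin.append u w) = u := by
  ext i; simp [base]

theorem fib_append (u : Fin b → ℂ) (w : Fin k → ℂ) : fib (Fin.append u w) = w := by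
  ext i; simp [fib]

theorem comb_add (z : Fin b → ℂ) (s t : Fin (2 * k) → ℝ) :
    comb Λ z (s + t) = comb Λ z s + comb Λ z t := by
  simp [comb, add_smul, Finset.sum_add_distrib]

theorem comb_smul (z : Fin b → ℂ) (r : ℝ) (t : Fin (2 * k) → ℝ) :
    comb Λ z (r • t) = r • comb Λ z t := by
  simp [comb, Finset.smul_sum, mul_smul]

theorem contDiffAt_append {P : Type*} [NormedAddCommGroup P] [NormedSpace ℝ P] {x : P}
    {f : P → Fin b → ℂ} {g : P → Fin k → ℂ} (hf : ContDiffAt ℝ 2 f x)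
    (hg : ContDiffAt ℝ 2 g x) : ContDiffAt ℝ 2 (fun y => Fin.append (f y) (g y)) x := by
  rw [contDiffAt_pi] at hf hg ⊢
  intro i
  refine Fin.addCases (fun i => ?_) (fun i => ?_) i
  · simpa using hf i
  · simpa using hg i

theorem contDiffAt_phi (hD : IsOpen D) (hΛ : DifferentiableOn ℂ Λ D)
    {x : Fin (2 * k + 1) → ℝ} (hx : z + x 0 • ξ ∈ D) : ContDiffAt ℝ 2 (phi Λ z ξ) x := by
  have h0 : ContDiffAt ℝ 2 (fun y : Fin (2 * k + 1) → ℝ => z + y 0 • ξ) x := by fun_prop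
  have h1 : ContDiffAt ℝ 2 (fun y : Fin (2 * k + 1) → ℝ => Λ (z + y 0 • ξ)) x :=
    ContDiffAt.comp (g := Λ) x (contDiffAt_two hD hΛ hx) h0
  refine contDiffAt_append h0 ?_
  have e : (fun y : Fin (2 * k + 1) → ℝ => comb Λ (z + y 0 • ξ) (Fin.tail y)) =
      fun y => ∑ l, (y l.succ) • Λ (z + y 0 • ξ) l := by
    funext y; simp [comb, Fin.tail]
  rw [e]
  refine ContDiffAt.sum fun l _ => ?_
  have h2 : ContDiffAt ℝ 2 (fun y : Fin (2 * k + 1) → ℝ => y l.succ) x := by fun_prop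
  exact h2.smul ((contDiffAt_pi.1 h1) l)

theorem fderiv_phi (hD : IsOpen D) (hΛ : DifferentiableOn ℂ Λ D)
    {x : Fin (2 * k + 1) → ℝ} (hx : z + x 0 • ξ ∈ D) (s : Fin (2 * k) → ℝ) :
    fderiv ℝ (phi Λ z ξ) x (Fin.cons 0 s) = Fin.append 0 (comb Λ (z + x 0 • ξ) s) := by
  have h1 : HasFDerivAt (phi Λ z ξ) (fderiv ℝ (phi Λ z ξ) x)
      (x + (0 : ℝ) • (Fin.cons 0 s : Fin (2 * k + 1) → ℝ)) := by
    simpa using ((contDiffAt_phi hD hΛ hx).differentiableAt (by norm_num)).hasFDerivAt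
  have h2 : HasDerivAt (fun r : ℝ => x + r • (Fin.cons 0 s : Fin (2 * k + 1) → ℝ))
      (Fin.cons 0 s) 0 := by
    have := ((hasDerivAt_id (0 : ℝ)).smul_const (Fin.cons 0 s : Fin (2 * k + 1) → ℝ)).const_add x
    simpa using this
  have h3 := h1.comp_hasDerivAt (0 : ℝ) h2
  have e : (phi Λ z ξ ∘ fun r : ℝ => x + r • (Fin.cons 0 s : Fin (2 * k + 1) → ℝ)) =
      fun r : ℝ => phi Λ z ξ x +
        r • (Fin.append 0 (comb Λ (z + x 0 • ξ) s) : Fin (b + k) → ℂ) := by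
    funext r
    have e1 : Fin.tail (x + r • (Fin.cons 0 s : Fin (2 * k + 1) → ℝ)) = Fin.tail x + r • s := by
      ext i; simp [Fin.tail]
    simp only [phi, Function.comp, e1, comb_add, comb_smul]
    ext i
    refine Fin.addCases (fun i => ?_) (fun i => ?_) i <;> simp
  rw [e] at h3
  have h4 : HasDerivAt (fun r : ℝ => phi Λ z ξ x +
        r • (Fin.append 0 (comb Λ (z + x 0 • ξ) s) : Fin (b + k) → ℂ))
      (Fin.append 0 (comb Λ (z + x 0 • ξ) s)) 0 := by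
    have := ((hasDerivAt_id (0 : ℝ)).smul_const
      (Fin.append 0 (comb Λ (z + x 0 • ξ) s) : Fin (b + k) → ℂ)).const_add (phi Λ z ξ x)
    simpa using this
  exact h3.unique h4

theorem base_phi (x : Fin (2 * k + 1) → ℝ) : base (phi Λ z ξ x) = z + x 0 • ξ :=
  base_append _ _

theorem phi_shift (x : Fin (2 * k + 1) → ℝ) (m : Fin (2 * k) → ℝ) :
    phi Λ z ξ (x + Fin.cons 0 m) = shift Λ m (phi Λ z ξ x) := by
  have e1 : Fin.tail (x + (Fin.cons 0 m : Fin (2 * k + 1) → ℝ)) = Fin.tail x + m := by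
    ext i; simp [Fin.tail]
  rw [shift, base_phi]
  simp only [phi, fib_append, e1, comb_add]
  simp

theorem differentiableAt_shift (hD : IsOpen D) (hΛ : DifferentiableOn ℂ Λ D)
    {v : Fin (b + k) → ℂ} (hv : base v ∈ D) (m : Fin (2 * k) → ℝ) :
    DifferentiableAt ℂ (shift Λ m) v := by
  have h0 : DifferentiableAt ℂ (base : (Fin (b + k) → ℂ) → (Fin b → ℂ)) v := by
    unfold base; fun_prop
  have h1 : DifferentiableAt ℂ (fun y : Fin (b + k) → ℂ => Λ (base y)) v :=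
    DifferentiableAt.comp (g := Λ) v ((hΛ _ hv).differentiableAt (hD.mem_nhds hv)) h0
  rw [differentiableAt_pi] at h1
  have h2 : DifferentiableAt ℂ (fun y : Fin (b + k) → ℂ => fib y + comb Λ (base y) m) v := by
    unfold comb
    refine DifferentiableAt.add (by unfold fib; fun_prop) ?_
    refine DifferentiableAt.fun_sum fun l _ => ?_
    exact (h1 l).const_smul (m l : ℂ)
  rw [differentiableAt_pi] at h0 h2 ⊢
  intro i
  refine Fin.addCases (fun i => ?_) (fun i => ?_) i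
  · simpa [shift] using h0 i
  · simpa [shift] using h2 i

theorem fderiv_phi_shift (hD : IsOpen D) (hΛ : DifferentiableOn ℂ Λ D)
    {x : Fin (2 * k + 1) → ℝ} (hx : z + x 0 • ξ ∈ D) (m : Fin (2 * k) → ℝ)
    (u : Fin (2 * k + 1) → ℝ) :
    fderiv ℝ (phi Λ z ξ) (x + Fin.cons 0 m) u =
      fderiv ℂ (shift Λ m) (phi Λ z ξ x) (fderiv ℝ (phi Λ z ξ) x u) := by
  have hx' : base (phi Λ z ξ x) ∈ D := by rwa [base_phi]
  have h1 := (contDiffAt_phi hD hΛ hx).differentiableAt (by norm_num) |>.hasFDerivAt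
  have h2 : HasFDerivAt (shift Λ m)
      ((fderiv ℂ (shift Λ m) (phi Λ z ξ x)).restrictScalars ℝ) (phi Λ z ξ x) :=
    (differentiableAt_shift hD hΛ hx' m).hasFDerivAt.restrictScalars ℝ
  have h3 := HasFDerivAt.comp (g := shift Λ m) x h2 h1
  have e : (shift Λ m ∘ phi Λ z ξ) = fun y => phi Λ z ξ (y + Fin.cons 0 m) := by
    funext y; simp [phi_shift]
  rw [e] at h3
  have h4 : z + (x + (Fin.cons 0 m : Fin (2 * k + 1) → ℝ)) 0 • ξ ∈ D := by simpa using hx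
  have h5 := (contDiffAt_phi hD hΛ h4).differentiableAt (by norm_num) |>.hasFDerivAt
  have h6 : HasFDerivAt (fun y : Fin (2 * k + 1) → ℝ => y + Fin.cons 0 m)
      (ContinuousLinearMap.id ℝ _) x := (hasFDerivAt_id x).add_const _
  have h7 := HasFDerivAt.comp (g := phi Λ z ξ) x h5 h6
  have h8 := HasFDerivAt.unique h7 h3
  have := congrArg (fun L => L u) h8
  simpa using this

theorem insertNth_succ_eq (l : Fin (2 * k)) (y : Fin (2 * k) → ℝ) :
    (Fin.insertNth (α := fun _ => ℝ) l.succ 1 y : Fin (2 * k + 1) → ℝ) =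
      Fin.insertNth (α := fun _ => ℝ) l.succ 0 y + Fin.cons 0 (Pi.single l 1) := by
  ext i
  rcases Fin.eq_self_or_eq_succAbove l.succ i with h | ⟨j, h⟩
  · subst h
    simp
  · subst h
    simp only [Fin.insertNth_apply_succAbove, Pi.add_apply]
    have : (Fin.cons 0 (Pi.single l 1) : Fin (2 * k + 1) → ℝ) (l.succ.succAbove j) = 0 := by
      have hne : l.succ.succAbove j ≠ l.succ := Fin.succAbove_ne _ _
      revert hne
      refine Fin.cases (fun _ => ?_) (fun i hne => ?_) (l.succ.succAbove j)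
      · simp
      · have : i ≠ l := fun h => hne (by rw [h])
        simp [this]
    rw [this, add_zero]

theorem cons_eq_sum (s : Fin (2 * k) → ℝ) :
    (Fin.cons 0 s : Fin (2 * k + 1) → ℝ) =
      ∑ l, s l • (Pi.single l.succ 1 : Fin (2 * k + 1) → ℝ) := by
  ext i
  refine Fin.cases ?_ (fun i => ?_) i
  · simp [Finset.sum_apply]
  · simp [Finset.sum_apply, Pi.single_apply]

theorem kappa_segment (hD : IsOpen D) (hΛ : DifferentiableOn ℂ Λ D)
    {Ω : (Fin (b + k) → ℂ) → (Fin (b + k) → ℂ) →L[ℝ] (Fin (b + k) → ℂ) →L[ℝ] ℝ}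
    (hΩ : ContDiffOn ℝ 1 Ω (tube D hD k)) (halt : ∀ v ∈ tube D hD k, ∀ u, Ω v u u = 0)
    (hcl : ∀ v ∈ tube D hD k, ∀ x y z : Fin (b + k) → ℂ,
      fderiv ℝ Ω v x y z + fderiv ℝ Ω v y z x + fderiv ℝ Ω v z x y = 0)
    (hinv : ∀ v ∈ tube D hD k, ∀ (m : Fin (2 * k) → ℤ), ∀ x y : Fin (b + k) → ℂ,
      Ω (shift Λ (fun l => (m l : ℝ)) v) (fderiv ℂ (shift Λ (fun l => (m l : ℝ))) v x)
        (fderiv ℂ (shift Λ (fun l => (m l : ℝ))) v y) = Ω v x y)
    (hseg : ∀ r ∈ Icc (0 : ℝ) 1, z + r • ξ ∈ D) (s t : Fin (2 * k) → ℝ) :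
    ∫ θ in Icc (0 : Fin (2 * k) → ℝ) 1,
      Ω (Fin.append z (comb Λ z θ)) (Fin.append 0 (comb Λ z s)) (Fin.append 0 (comb Λ z t)) =
    ∫ θ in Icc (0 : Fin (2 * k) → ℝ) 1,
      Ω (Fin.append (z + ξ) (comb Λ (z + ξ) θ)) (Fin.append 0 (comb Λ (z + ξ) s))
        (Fin.append 0 (comb Λ (z + ξ) t)) := by
  classical
  set om : (Fin (2 * k + 1) → ℝ) → (Fin (2 * k + 1) → ℝ) → (Fin (2 * k + 1) → ℝ) → ℝ :=
    fun x u v => Ω (phi Λ z ξ x) (fderiv ℝ (phi Λ z ξ) x u) (fderiv ℝ (phi Λ z ξ) x v) with hom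
  set S : Fin (2 * k + 1) → ℝ := Fin.cons 0 s with hS
  set T : Fin (2 * k + 1) → ℝ := Fin.cons 0 t with hT
  set e0 : Fin (2 * k + 1) → ℝ := Pi.single 0 1 with he0
  -- membership
  have hmem : ∀ x ∈ Icc (0 : Fin (2 * k + 1) → ℝ) 1, z + x 0 • ξ ∈ D := fun x hx =>
    hseg _ ⟨hx.1 0, hx.2 0⟩
  have htube : ∀ x : Fin (2 * k + 1) → ℝ, z + x 0 • ξ ∈ D → phi Λ z ξ x ∈ tube D hD k := by
    intro x hx
    change base (phi Λ z ξ x) ∈ D
    rwa [base_phi]
  have hΩd : ∀ x : Fin (2 * k + 1) → ℝ, z + x 0 • ξ ∈ D →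
      DifferentiableAt ℝ Ω (phi Λ z ξ x) := fun x hx =>
    ((hΩ.contDiffAt ((tube D hD k).isOpen.mem_nhds (htube x hx))).differentiableAt (by norm_num))
  have hdiff : ∀ x : Fin (2 * k + 1) → ℝ, z + x 0 • ξ ∈ D → ∀ u v,
      DifferentiableAt ℝ (fun y => om y u v) x := fun x hx u v =>
    (pullback_fderiv (contDiffAt_phi hD hΛ hx) (hΩd x hx) u v).1
  have hper : ∀ x : Fin (2 * k + 1) → ℝ, z + x 0 • ξ ∈ D → ∀ l : Fin (2 * k), ∀ u v,
      om (x + Fin.cons 0 (Pi.single l 1)) u v = om x u v := by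
    intro x hx l u v
    have hm : (Pi.single l 1 : Fin (2 * k) → ℝ) =
        fun j => (((Pi.single l 1 : Fin (2 * k) → ℤ) j : ℤ) : ℝ) := by
      ext j
      by_cases h : j = l
      · subst h; simp
      · simp [h]
    simp only [hom]
    rw [fderiv_phi_shift hD hΛ hx, fderiv_phi_shift hD hΛ hx, phi_shift, hm]
    exact hinv _ (htube x hx) _ _ _
  -- the vector field
  set f : Fin (2 * k + 1) → (Fin (2 * k + 1) → ℝ) → ℝ :=
    Fin.cons (fun x => om x S T) (fun l x => s l * om x T e0 + t l * om x e0 S) with hf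
  have hf0 : f 0 = fun x => om x S T := rfl
  have hfs : ∀ l, f (Fin.succ l) = fun x => s l * om x T e0 + t l * om x e0 S := fun l => rfl
  have hfd : ∀ x : Fin (2 * k + 1) → ℝ, z + x 0 • ξ ∈ D → ∀ i, DifferentiableAt ℝ (f i) x := by
    intro x hx i
    refine Fin.cases ?_ (fun l => ?_) i
    · rw [hf0]; exact hdiff x hx S T
    · rw [hfs]
      exact ((hdiff x hx T e0).const_mul _).add ((hdiff x hx e0 S).const_mul _)
  have hdiv : ∀ x : Fin (2 * k + 1) → ℝ, z + x 0 • ξ ∈ D →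
      ∑ i, fderiv ℝ (f i) x (Pi.single i 1) = 0 := by
    intro x hx
    have key := pullback_closed (contDiffAt_phi hD hΛ hx) (hΩd x hx) (halt _ (htube x hx))
      (hcl _ (htube x hx)) e0 S T
    rw [Fin.sum_univ_succ, hf0]
    have h1 : ∀ l : Fin (2 * k), fderiv ℝ (f l.succ) x (Pi.single l.succ 1) =
        s l * fderiv ℝ (fun y => om y T e0) x (Pi.single l.succ 1) +
        t l * fderiv ℝ (fun y => om y e0 S) x (Pi.single l.succ 1) := by
      intro l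
      have h := (((hdiff x hx T e0).hasFDerivAt.const_mul (s l)).fun_add
        ((hdiff x hx e0 S).hasFDerivAt.const_mul (t l))).fderiv
      rw [hfs]
      have h' := congrArg (fun L => L (Pi.single l.succ 1 : Fin (2 * k + 1) → ℝ)) h
      simpa using h'
    rw [Finset.sum_congr rfl fun l _ => h1 l, Finset.sum_add_distrib]
    have h2 : fderiv ℝ (fun y => om y T e0) x S =
        ∑ l, s l * fderiv ℝ (fun y => om y T e0) x (Pi.single l.succ 1) := by
      rw [hS, cons_eq_sum, map_sum]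
      simp
    have h3 : fderiv ℝ (fun y => om y e0 S) x T =
        ∑ l, t l * fderiv ℝ (fun y => om y e0 S) x (Pi.single l.succ 1) := by
      rw [hT, cons_eq_sum, map_sum]
      simp
    rw [← h2, ← h3, ← add_assoc]
    exact key
  have hdt := integral_divergence_of_hasFDerivAt_off_countable' (0 : Fin (2 * k + 1) → ℝ) 1
    (by intro i; simp) f (fun i x => fderiv ℝ (f i) x) ∅ countable_empty
    (fun i x hx => (hfd x (hmem x hx) i).continuousAt.continuousWithinAt)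
    (fun x hx i => (hfd x (hmem x ⟨fun j => ((hx.1 j (mem_univ j)).1).le,
      fun j => ((hx.1 j (mem_univ j)).2).le⟩) i).hasFDerivAt)
    (by
      refine IntegrableOn.congr_fun (f := fun _ => (0 : ℝ)) (by simp) ?_ measurableSet_Icc
      intro x hx
      exact (hdiv x (hmem x hx)).symm)
  rw [setIntegral_congr_fun (g := fun _ => (0 : ℝ)) measurableSet_Icc
    (fun x hx => hdiv x (hmem x hx)), Fin.sum_univ_succ] at hdt
  have hz : ∀ l : Fin (2 * k),
      ((∫ x in Icc ((0 : Fin (2 * k + 1) → ℝ) ∘ l.succ.succAbove)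
          ((1 : Fin (2 * k + 1) → ℝ) ∘ l.succ.succAbove),
          f l.succ (l.succ.insertNth ((1 : Fin (2 * k + 1) → ℝ) l.succ) x)) -
        ∫ x in Icc ((0 : Fin (2 * k + 1) → ℝ) ∘ l.succ.succAbove)
          ((1 : Fin (2 * k + 1) → ℝ) ∘ l.succ.succAbove),
          f l.succ (l.succ.insertNth ((0 : Fin (2 * k + 1) → ℝ) l.succ) x)) = 0 := by
    intro l
    rw [sub_eq_zero]
    refine setIntegral_congr_fun measurableSet_Icc fun y hy => ?_
    have hin : (Fin.insertNth (α := fun _ => ℝ) l.succ 0 y : Fin (2 * k + 1) → ℝ) ∈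
        Icc (0 : Fin (2 * k + 1) → ℝ) 1 := by
      rw [Fin.insertNth_mem_Icc]
      exact ⟨by simp, hy⟩
    have hx := hmem _ hin
    change f l.succ (Fin.insertNth (α := fun _ => ℝ) l.succ 1 y) =
      f l.succ (Fin.insertNth (α := fun _ => ℝ) l.succ 0 y)
    rw [insertNth_succ_eq, hfs]
    simp only [hper _ hx l]
  rw [Finset.sum_congr rfl fun l _ => hz l] at hdt
  simp only [integral_zero, Finset.sum_const_zero, add_zero] at hdt
  have hdt' := (sub_eq_zero.1 hdt.symm).symm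
  have hface : ∀ r ∈ Icc (0 : ℝ) 1, ∀ y : Fin (2 * k) → ℝ,
      f 0 (Fin.insertNth (α := fun _ => ℝ) 0 r y) =
        Ω (Fin.append (z + r • ξ) (comb Λ (z + r • ξ) y))
          (Fin.append 0 (comb Λ (z + r • ξ) s)) (Fin.append 0 (comb Λ (z + r • ξ) t)) := by
    intro r hr y
    have hx : z + (Fin.insertNth (α := fun _ => ℝ) 0 r y : Fin (2 * k + 1) → ℝ) 0 • ξ ∈ D := by
      simpa using hseg r hr
    rw [hf0]
    simp only [hom, hS, hT]
    rw [fderiv_phi hD hΛ hx, fderiv_phi hD hΛ hx]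
    simp [phi]
  have e0' : ∀ y : Fin (2 * k) → ℝ,
      f 0 (Fin.insertNth (α := fun _ => ℝ) 0 ((0 : Fin (2 * k + 1) → ℝ) 0) y) =
        Ω (Fin.append z (comb Λ z y)) (Fin.append 0 (comb Λ z s))
          (Fin.append 0 (comb Λ z t)) := by
    intro y
    have := hface 0 (by simp) y
    simpa using this
  have e1' : ∀ y : Fin (2 * k) → ℝ,
      f 0 (Fin.insertNth (α := fun _ => ℝ) 0 ((1 : Fin (2 * k + 1) → ℝ) 0) y) =
        Ω (Fin.append (z + ξ) (comb Λ (z + ξ) y)) (Fin.append 0 (comb Λ (z + ξ) s))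
          (Fin.append 0 (comb Λ (z + ξ) t)) := by
    intro y
    have := hface 1 (by simp) y
    simpa using this
  simp only [e0', e1'] at hdt'
  exact hdt'

end phi

/-- The periods of a closed, lattice invariant 2-form do not depend on the base point. -/
theorem kappa_const {b k : ℕ} {D : Set (Fin b → ℂ)} (hD : IsOpen D) (hDc : IsPreconnected D)
    {Λ : (Fin b → ℂ) → Fin (2 * k) → Fin k → ℂ} (hΛ : DifferentiableOn ℂ Λ D)
    {Ω : (Fin (b + k) → ℂ) → (Fin (b + k) → ℂ) →L[ℝ] (Fin (b + k) → ℂ) →L[ℝ] ℝ}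
    (hΩ : ContDiffOn ℝ 1 Ω (tube D hD k)) (halt : ∀ v ∈ tube D hD k, ∀ u, Ω v u u = 0)
    (hcl : ∀ v ∈ tube D hD k, ∀ x y z : Fin (b + k) → ℂ,
      fderiv ℝ Ω v x y z + fderiv ℝ Ω v y z x + fderiv ℝ Ω v z x y = 0)
    (hinv : ∀ v ∈ tube D hD k, ∀ (m : Fin (2 * k) → ℤ), ∀ x y : Fin (b + k) → ℂ,
      Ω (shift Λ (fun l => (m l : ℝ)) v) (fderiv ℂ (shift Λ (fun l => (m l : ℝ))) v x)
        (fderiv ℂ (shift Λ (fun l => (m l : ℝ))) v y) = Ω v x y)
    {z₀ z₁ : Fin b → ℂ} (hz₀ : z₀ ∈ D) (hz₁ : z₁ ∈ D) (s t : Fin (2 * k) → ℝ) :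
    ∫ θ in Set.pi Set.univ (fun _ : Fin (2 * k) => Set.Icc (0 : ℝ) 1),
      Ω (Fin.append z₀ (comb Λ z₀ θ)) (Fin.append 0 (comb Λ z₀ s)) (Fin.append 0 (comb Λ z₀ t)) =
    ∫ θ in Set.pi Set.univ (fun _ : Fin (2 * k) => Set.Icc (0 : ℝ) 1),
      Ω (Fin.append z₁ (comb Λ z₁ θ)) (Fin.append 0 (comb Λ z₁ s)) (Fin.append 0 (comb Λ z₁ t)) := by
  have hI : Set.pi Set.univ (fun _ : Fin (2 * k) => Set.Icc (0 : ℝ) 1) =
      Icc (0 : Fin (2 * k) → ℝ) 1 := by
    rw [Set.pi_univ_Icc]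
    rfl
  rw [hI]
  refine hDc.induction₂ (fun z₀ z₁ =>
    ∫ θ in Icc (0 : Fin (2 * k) → ℝ) 1,
      Ω (Fin.append z₀ (comb Λ z₀ θ)) (Fin.append 0 (comb Λ z₀ s)) (Fin.append 0 (comb Λ z₀ t)) =
    ∫ θ in Icc (0 : Fin (2 * k) → ℝ) 1,
      Ω (Fin.append z₁ (comb Λ z₁ θ)) (Fin.append 0 (comb Λ z₁ s)) (Fin.append 0 (comb Λ z₁ t)))
    ?_ ?_ ?_ hz₀ hz₁
  · intro x hx
    obtain ⟨r, hr, hball⟩ := Metric.isOpen_iff.1 hD x hx
    refine mem_nhdsWithin_of_mem_nhds ?_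
    filter_upwards [Metric.ball_mem_nhds x hr] with y hy
    have hseg : ∀ u ∈ Icc (0 : ℝ) 1, x + u • (y - x) ∈ D := by
      intro u hu
      apply hball
      have := (convex_ball x r).add_smul_sub_mem (Metric.mem_ball_self hr) hy hu
      exact this
    have := kappa_segment hD hΛ hΩ halt hcl hinv hseg s t
    simpa using this
  · intro x y w _ _ _ h1 h2
    exact h1.trans h2
  · intro x y _ _ h
    exact h.symm

end Pool.Agent.Helper81.Abund
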